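import Pool.Agent.W528.Ord.MotDefs

/-! Systems whose monodromy is connected only over a finite extension: definitions. -/

set_option autoImplicit false
set_option linter.all false

namespace Pool.Agent.U41.ED

open NumberField IsDedekindDomain Polynomial
open Pool.Agent.W401.Cheb Pool.Agent.W528.Ord
open Pool.Agent.W528.Ord.MultSystem (mv IsDeg1 IsOver)

section conn

variable {K : Type} [Field K] [NumberField K] {E : Type} [Field E] [NumberField E]
  {Ω : Type} [Field Ω] [CharZero Ω] {n : ℕ}

/-- The Zariski closure of the image of the subgroup `U` under `(ρ, χ)` is connected: a polynomial relation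
which holds on the coset `γ V` of an open subgroup `V` holds on the coset `γ U`. -/
def ConnectedOn (U : Subgroup (GK K)) (ρ : (E →+* Ω) → GK K →* Matrix.GeneralLinearGroup (Fin n) Ω)
    (χ : GK K →* Ωˣ) : Prop :=
  ∀ (F : MvPolynomial (((E →+* Ω) × Fin n × Fin n) ⊕ Unit) Ω) (V : Subgroup (GK K)) (γ : GK K),
    IsOpen (V : Set (GK K)) → (∀ u ∈ V, MvPolynomial.eval (coords ρ χ (γ * u)) F = 0) →
    ∀ u ∈ U, MvPolynomial.eval (coords ρ χ (γ * u)) F = 0

end conn

variable {K : Type} [Field K] [NumberField K] {ℓ : ℕ} [Fact ℓ.Prime]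

/-- the orbit of `σ₀` under the powers of `γ` -/
def orbit (A : MotSystem K ℓ) (γ : GK K) (σ₀ : A.E →+* AlgebraicClosure K) :
    Set (A.E →+* AlgebraicClosure K) :=
  {σ | ∃ j : ℕ, σ = mv (γ ^ j) σ₀}

/-- The system `A` is ordinary at `v`: for some maximal ideal `Q` above `v` of the ring of all algebraic
integers (as the Galois group acts, for all of them) the Newton polygons at `Q` of all `σ`-parts of the
Frobenius polynomial are the Hodge polygons, that is, they contain the vertices of the Hodge polygons. -/
def OrdinaryAt (A : MotSystem K ℓ) (v : HeightOneSpectrum (𝓞 K)) : Prop :=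
  ∃ Q : Ideal (𝓞 (AlgebraicClosure K)), IsOver Q v ∧
    ∀ (σ : A.E →+* AlgebraicClosure K) (k : ℕ), A.Vertex σ k →
      LocEq Q (Ideal.absNorm v.asIdeal) (A.hp σ k) (A.cof v (A.n - k) σ)

/-- The properties of the compatible system of Galois representations of a pure motive with
multiplication by a number field `E` over `K`, at the places of degree one outside the finite set of
residue characteristics `S`; `χ` is the cyclotomic character. The subgroup `U` of the Galois group
fixes the embeddings of `E`, its image has connected Zariski closure, and it contains a Frobenius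
element whose polynomial is not a power of a linear polynomial (unless the Hodge polygons have no vertices).
The Hodge polygons of the `σ`-parts have their vertices at the same places. -/
structure IsSystem (A : MotSystem K ℓ) (χ : GK K →* (PadicAlgCl ℓ)ˣ) (S : Finset ℕ)
    (U : Subgroup (GK K)) : Prop where
  isHodge : A.IsHodge
  isUnram : A.Unram S
  isMonic : A.IsMonic S
  isWeil : A.Weil S
  isMazur : A.Mazur S
  isCont : A.IsCont χ
  isCompat : A.Compat χ S
  fix : ∀ u ∈ U, ∀ σ : A.E →+* AlgebraicClosure K, mv u σ = σ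
  connected : ConnectedOn U A.ρ χ
  nonScalar : (∃ (σ : A.E →+* AlgebraicClosure K) (k : ℕ), A.Vertex σ k) →
    ∃ v : HeightOneSpectrum (𝓞 K), IsDeg1 S v ∧ (∃ u ∈ U, IsFrob v u) ∧
      ∃ τ : A.E →+* ℂ, ∀ α : ℂ, A.poly v τ ≠ (X - C α) ^ A.n
  vertices : ∀ (σ σ' : A.E →+* AlgebraicClosure K) (k : ℕ), A.Vertex σ k → A.Vertex σ' k

/-- the orbit condition: for every vertex `k` of the Hodge polygon of the `σ₀`-part, twice the total
defect at `k` is at most twice the number of elements of the orbit of `σ₀` -/
def AdmissibleAt (A : MotSystem K ℓ) (γ : GK K) : Prop :=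
  ∀ (σ₀ : A.E →+* AlgebraicClosure K) (k : ℕ), A.Vertex σ₀ k →
    A.defect k ≤ 2 * ((orbit A γ σ₀).ncard : ℤ)

section family

variable {ι : Type} (A : ι → MotSystem K ℓ) (S : ι → Finset ℕ)

/-- `v` is a place of degree one with residue characteristic outside the `S i`, and all `A i` are ordinary
at `v` -/
def AllOrdinaryAt (v : HeightOneSpectrum (𝓞 K)) : Prop :=
  (Ideal.absNorm v.asIdeal).Prime ∧ (∀ i, Ideal.absNorm v.asIdeal ∉ S i) ∧ ∀ i, OrdinaryAt (A i) v

/-- the classes modulo `U` of the Frobenius elements of the places at which all `A i` are ordinary -/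
def ordinaryClasses (U : Subgroup (GK K)) : Set (GK K ⧸ U) :=
  {x | ∃ (v : HeightOneSpectrum (𝓞 K)) (γ : GK K), AllOrdinaryAt A S v ∧ IsFrob v γ ∧
    (QuotientGroup.mk γ : GK K ⧸ U) = x}

end family

end Pool.Agent.U41.ED
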