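import Pool.Agent.W528.Ord.Engine
import Pool.Agent.U41.ED.Defs

/-! Polynomial relations on the cosets of a normal open subgroup with connected monodromy. -/

set_option autoImplicit false
set_option linter.all false

namespace Pool.Agent.U41.ED

open MeasureTheory Topology Filter NumberField IsDedekindDomain Polynomial
open Pool.Agent.W401.Cheb Pool.Agent.W528.Ord

variable {K : Type} [Field K] [NumberField K] {E : Type} [Field E] [NumberField E]
  {Ω : Type} [Field Ω] [CharZero Ω] {n : ℕ}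

variable (ρ : (E →+* Ω) → GK K →* Matrix.GeneralLinearGroup (Fin n) Ω) (χ : GK K →* Ωˣ)
  (U : Subgroup (GK K))

open Classical in
/-- the characteristic function of a coset -/
noncomputable def ind (q : GK K ⧸ U) : GK K → Ω := fun g => if (QuotientGroup.mk g : GK K ⧸ U) = q then 1 else 0

/-- generators -/
def gens : Set (GK K → Ω) :=
  Set.range (fun i : ((E →+* Ω) × Fin n × Fin n) ⊕ Unit => fun g => coords ρ χ g i) ∪
    Set.range (fun q : GK K ⧸ U => (ind U q : GK K → Ω))

/-- functions which are polynomial on the cosets of `U` -/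
noncomputable def FAU : Subalgebra Ω (GK K → Ω) := Algebra.adjoin Ω (gens ρ χ U)

theorem FA_le : FA ρ χ ≤ FAU ρ χ U := by
  intro F hF
  rw [mem_FA] at hF
  obtain ⟨P, hP⟩ := hF
  have h : F = fun x => MvPolynomial.eval (coords ρ χ x) P := by
    funext x; exact hP _
  rw [h]
  clear h hP
  induction P using MvPolynomial.induction_on with
  | C a =>
    have : (fun x => MvPolynomial.eval (coords ρ χ x) (MvPolynomial.C a)) =
        algebraMap Ω (GK K → Ω) a := by
      funext x
      rw [MvPolynomial.eval_C]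
      rfl
    rw [this]
    exact (FAU ρ χ U).algebraMap_mem a
  | add p q hp hq =>
    have : (fun x => MvPolynomial.eval (coords ρ χ x) (p + q)) =
        (fun x => MvPolynomial.eval (coords ρ χ x) p) +
        (fun x => MvPolynomial.eval (coords ρ χ x) q) := by
      funext x
      rw [map_add]
      rfl
    rw [this]
    exact (FAU ρ χ U).add_mem hp hq
  | mul_X p i hp =>
    have : (fun x => MvPolynomial.eval (coords ρ χ x) (p * MvPolynomial.X i)) =
        (fun x => MvPolynomial.eval (coords ρ χ x) p) * (fun x => coords ρ χ x i) := by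
      funext x
      rw [map_mul, MvPolynomial.eval_X]
      rfl
    rw [this]
    apply (FAU ρ χ U).mul_mem hp
    exact Algebra.subset_adjoin (Or.inl ⟨i, rfl⟩)

theorem ind_mem (q : GK K ⧸ U) : (ind U q : GK K → Ω) ∈ FAU ρ χ U :=
  Algebra.subset_adjoin (Or.inr ⟨q, rfl⟩)

theorem noethU [Finite (GK K ⧸ U)] : IsNoetherianRing (FAU ρ χ U) := by
  have hf : (gens ρ χ U : Set (GK K → Ω)).Finite := (Set.finite_range _).union (Set.finite_range _)
  have h1 : (FAU ρ χ U).FG := by
    have h2 := Subalgebra.fg_adjoin_finset (R := Ω) hf.toFinset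
    rw [hf.coe_toFinset] at h2
    exact h2
  haveI : Algebra.FiniteType Ω (FAU ρ χ U) := (Subalgebra.fg_iff_finiteType _).mp h1
  exact Algebra.FiniteType.isNoetherianRing Ω _

theorem transU_mem [U.Normal] (g : GK K) (F : GK K → Ω) (hF : F ∈ FAU ρ χ U) :
    (fun x => F (g * x)) ∈ FAU ρ χ U := by
  unfold FAU at hF
  induction hF using Algebra.adjoin_induction with
  | mem F hF =>
    rcases hF with ⟨i, rfl⟩ | ⟨q, rfl⟩
    · apply FA_le ρ χ U
      apply trans_mem ρ χ g (fun x => coords ρ χ x i)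
      rw [mem_FA]
      exact ⟨MvPolynomial.X i, fun g => by rw [MvPolynomial.eval_X]⟩
    · have e : (fun x => (ind U q : GK K → Ω) (g * x)) =
          ind U ((QuotientGroup.mk g : GK K ⧸ U)⁻¹ * q) := by
        funext x
        unfold ind
        congr 1
        apply propext
        rw [QuotientGroup.mk_mul]
        constructor
        · rintro rfl
          rw [inv_mul_cancel_left]
        · intro h
          rw [h, mul_inv_cancel_left]
      rw [e]
      exact ind_mem ρ χ U _
  | algebraMap r => exact (FAU ρ χ U).algebraMap_mem r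
  | add F G _ _ hF hG => exact (FAU ρ χ U).add_mem hF hG
  | mul F G _ _ hF hG => exact (FAU ρ χ U).mul_mem hF hG

section top

variable [TopologicalSpace Ω] [IsTopologicalRing Ω] [T2Space Ω]

theorem coset_clopen (hU : IsOpen (U : Set (GK K))) (q : GK K ⧸ U) :
    IsClopen {g : GK K | (QuotientGroup.mk g : GK K ⧸ U) = q} := by
  haveI : DiscreteTopology (GK K ⧸ U) := QuotientGroup.discreteTopology hU
  have e : {g : GK K | (QuotientGroup.mk g : GK K ⧸ U) = q} = (QuotientGroup.mk : GK K → GK K ⧸ U) ⁻¹' {q} := rfl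
  rw [e]
  exact (isClopen_discrete {q}).preimage QuotientGroup.continuous_mk

theorem contU_mem (hU : IsOpen (U : Set (GK K)))
    (hρ : ∀ (τ : E →+* Ω) (i j : Fin n), Continuous fun g : GK K => (ρ τ g : Matrix (Fin n) (Fin n) Ω) i j)
    (hχ : Continuous fun g : GK K => (χ g : Ω)) (F : GK K → Ω) (hF : F ∈ FAU ρ χ U) : Continuous F := by
  unfold FAU at hF
  induction hF using Algebra.adjoin_induction with
  | mem F hF =>
    rcases hF with ⟨i, rfl⟩ | ⟨q, rfl⟩
    · rcases i with ⟨τ, i, j⟩ | u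
      · exact hρ τ i j
      · exact hχ
    · classical
      unfold ind
      refine Continuous.if ?_ continuous_const continuous_const
      intro a ha
      rw [(coset_clopen U hU q).frontier_eq] at ha
      exact absurd ha (Set.notMem_empty a)
  | algebraMap r => exact continuous_const
  | add F G _ _ hF hG => exact hF.add hG
  | mul F G _ _ hF hG => exact hF.mul hG

/-- **alternative on a class** -/
theorem alternativeU [U.Normal] (hU : IsOpen (U : Set (GK K)))
    (hρ : ∀ (τ : E →+* Ω) (i j : Fin n), Continuous fun g : GK K => (ρ τ g : Matrix (Fin n) (Fin n) Ω) i j)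
    (hχ : Continuous fun g : GK K => (χ g : Ω)) (hconn : ConnectedOn U ρ χ) (F : GK K → Ω)
    (hF : F ∈ FA ρ χ) (hcl : ∀ σ τ : GK K, F (τ * σ * τ⁻¹) = F σ) (x : GK K ⧸ U) :
    (∀ g, (QuotientGroup.mk g : GK K ⧸ U) = x → F g = 0) ∨
      Tendsto (dens fun v : HeightOneSpectrum (𝓞 K) =>
        ∃ σ, (F σ = 0 ∧ (QuotientGroup.mk σ : GK K ⧸ U) = x) ∧ IsFrob v σ) atTop (𝓝 0) := by
  classical
  haveI : Finite (GK K ⧸ U) := Subgroup.quotient_finite_of_isOpen _ hU
  letI : MeasurableSpace (GK K) := borel (GK K)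
  haveI : BorelSpace (GK K) := ⟨rfl⟩
  let μ : Measure (GK K) := Measure.haarMeasure ⊤
  haveI : IsProbabilityMeasure μ := ⟨by
    have := Measure.haarMeasure_self (K₀ := (⊤ : TopologicalSpace.PositiveCompacts (GK K)))
    exact this⟩
  by_cases hall : ∀ g, (QuotientGroup.mk g : GK K ⧸ U) = x → F g = 0
  · exact Or.inl hall
  right
  -- the conjugates of `x`
  let C : Set (GK K ⧸ U) := {q | ∃ t : GK K ⧸ U, t * q * t⁻¹ = x}
  let Z : Set (GK K) := {g | F g = 0} ∩ ⋃ q ∈ C, {g | (QuotientGroup.mk g : GK K ⧸ U) = q}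
  have hFc : IsClosed {g | F g = 0} := isClosed_eq (cont_mem ρ χ hρ hχ F hF) continuous_const
  have hZ : IsClosed Z := by
    apply hFc.inter
    exact (Set.toFinite C).isClosed_biUnion fun q _ => (coset_clopen U hU q).1
  have hzero : ∀ q ∈ C, μ {g | (QuotientGroup.mk g : GK K ⧸ U) = q ∧ F g = 0} = 0 := by
    rintro q ⟨t, ht⟩
    by_contra hne
    let Fq : GK K → Ω := fun g => 1 - ind U q g + ind U q g * F g
    have hFq : Fq ∈ FAU ρ χ U :=
      (FAU ρ χ U).add_mem ((FAU ρ χ U).sub_mem (FAU ρ χ U).one_mem (ind_mem ρ χ U q))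
        ((FAU ρ χ U).mul_mem (ind_mem ρ χ U q) (FA_le ρ χ U hF))
    have hval : ∀ g, Fq g = if (QuotientGroup.mk g : GK K ⧸ U) = q then F g else 1 := by
      intro g
      change 1 - ind U q g + ind U q g * F g = _
      unfold ind
      by_cases h : (QuotientGroup.mk g : GK K ⧸ U) = q
      · rw [if_pos h, if_pos h]; ring
      · rw [if_neg h, if_neg h]; ring
    have hset : {g | Fq g = 0} = {g | (QuotientGroup.mk g : GK K ⧸ U) = q ∧ F g = 0} := by
      ext g
      rw [Set.mem_setOf_eq, Set.mem_setOf_eq, hval]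
      by_cases h : (QuotientGroup.mk g : GK K ⧸ U) = q
      · rw [if_pos h]; exact ⟨fun h2 => ⟨h, h2⟩, fun h2 => h2.2⟩
      · rw [if_neg h]; exact ⟨fun h2 => absurd h2 one_ne_zero, fun h2 => absurd h2.1 h⟩
    rw [← hset] at hne
    haveI := noethU ρ χ U
    obtain ⟨V, γ, hV, hVγ⟩ := coset_of_pos μ (FAU ρ χ U) (transU_mem ρ χ U)
      (contU_mem ρ χ U hU hρ hχ) Fq hFq hne
    have hV2 : ∀ u ∈ V, (QuotientGroup.mk (γ * u) : GK K ⧸ U) = q ∧ F (γ * u) = 0 := by
      intro u hu
      have h3 := hVγ u hu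
      rw [hval] at h3
      by_cases h : (QuotientGroup.mk (γ * u) : GK K ⧸ U) = q
      · rw [if_pos h] at h3; exact ⟨h, h3⟩
      · rw [if_neg h] at h3; exact absurd h3 one_ne_zero
    have hγ : (QuotientGroup.mk γ : GK K ⧸ U) = q := by
      have := (hV2 1 V.one_mem).1
      rwa [mul_one] at this
    obtain ⟨P, hP⟩ := (mem_FA ρ χ F).mp hF
    have hUγ : ∀ u ∈ U, F (γ * u) = 0 := by
      intro u hu
      rw [hP]
      exact hconn P V γ hV (fun u hu => by rw [← hP]; exact (hV2 u hu).2) u hu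
    apply hall
    intro g hg
    obtain ⟨τ, rfl⟩ := QuotientGroup.mk_surjective t
    have h4 : (QuotientGroup.mk (τ⁻¹ * g * τ) : GK K ⧸ U) = q := by
      rw [QuotientGroup.mk_mul, QuotientGroup.mk_mul, QuotientGroup.mk_inv, hg, ← ht]
      group
    have h5 : γ⁻¹ * (τ⁻¹ * g * τ) ∈ U := by
      rw [← QuotientGroup.eq, hγ, h4]
    have h6 := hUγ _ h5
    rw [mul_inv_cancel_left] at h6
    have h7 := hcl (τ⁻¹ * g * τ) τ
    rw [← h7] at h6
    have e : τ * (τ⁻¹ * g * τ) * τ⁻¹ = g := by group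
    rw [e] at h6
    exact h6
  have hμ : μ Z = 0 := by
    have hsub : Z ⊆ ⋃ q ∈ C, {g | (QuotientGroup.mk g : GK K ⧸ U) = q ∧ F g = 0} := by
      rintro g ⟨h1, h2⟩
      simp only [Set.mem_iUnion] at h2 ⊢
      obtain ⟨q, hq, h3⟩ := h2
      exact ⟨q, hq, h3, h1⟩
    refine measure_mono_null hsub ?_
    exact (measure_biUnion_null_iff (Set.toFinite C).countable).mpr hzero
  have hconj : ∀ σ ∈ Z, ∀ τ : GK K, τ * σ * τ⁻¹ ∈ Z := by
    rintro σ ⟨h1, h2⟩ τ
    simp only [Set.mem_iUnion] at h2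
    obtain ⟨q, ⟨t, ht⟩, h3⟩ := h2
    refine ⟨(hcl σ τ).trans h1, ?_⟩
    simp only [Set.mem_iUnion]
    refine ⟨QuotientGroup.mk (τ * σ * τ⁻¹), ⟨t * (QuotientGroup.mk τ)⁻¹, ?_⟩, rfl⟩
    rw [← ht, ← (show (QuotientGroup.mk σ : GK K ⧸ U) = q from h3), QuotientGroup.mk_mul,
      QuotientGroup.mk_mul, QuotientGroup.mk_inv]
    group
  refine squeeze_zero (fun N => dens_nonneg _ _) (fun N => dens_mono ?_ N) (dens_null μ Z hZ hconj hμ)
  rintro v ⟨σ, ⟨h1, h2⟩, hσ⟩
  refine ⟨σ, ⟨h1, ?_⟩, hσ⟩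
  simp only [Set.mem_iUnion]
  exact ⟨x, ⟨1, by rw [one_mul, inv_one, mul_one]⟩, h2⟩

end top

end Pool.Agent.U41.ED
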