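import Pool.Agent.U41.ED.Alg
import Pool.Agent.U41.OP.Base

/-! The dichotomy for one vertex and one class. -/

set_option autoImplicit false
set_option linter.all false

namespace Pool.Agent.U41.ED

open MeasureTheory Topology Filter NumberField IsDedekindDomain Polynomial
open Pool.Agent.W401.Cheb Pool.Agent.W528.Ord
open Pool.Agent.W528.Ord.MultSystem (mv IsDeg1 IsOver mv_mul mv_one mv_inj mv_fix_open norm_mem frob_pow_dvd
  mv_conj_pow)
open Pool.Agent.U41.OP (smul_map char_conj)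

variable {K : Type} [Field K] [NumberField K] {ℓ : ℕ} [Fact ℓ.Prime]

/-- the functions -/
noncomputable def Fs (A : MotSystem K ℓ) (χ : GK K →* (PadicAlgCl ℓ)ˣ) (k s : ℕ) (g : GK K) : PadicAlgCl ℓ :=
  cf A.ρ (A.n - k) g ^ 2 - (s : PadicAlgCl ℓ) * (χ g : PadicAlgCl ℓ) ^ (A.w * k * Module.finrank ℚ A.E)

/-- the bound for `s` -/
noncomputable def CC (A : MotSystem K ℓ) (k : ℕ) : ℕ := (A.n.choose k) ^ (2 * Module.finrank ℚ A.E)

/-- the class `x` is dead at `k` -/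
def Dead (A : MotSystem K ℓ) (χ : GK K →* (PadicAlgCl ℓ)ˣ) (U : Subgroup (GK K)) (k : ℕ) (x : GK K ⧸ U) :
    Prop :=
  ∃ s ≤ CC A k, (0 < A.defect k ∨ s = 0) ∧ ∀ g, (QuotientGroup.mk g : GK K ⧸ U) = x → Fs A χ k s g = 0

section basics

variable {A : MotSystem K ℓ} {χ : GK K →* (PadicAlgCl ℓ)ˣ}

theorem Fs_mem (k s : ℕ) : Fs A χ k s ∈ FA A.ρ χ := by
  have h1 : Fs A χ k s = (fun g => cf A.ρ (A.n - k) g) ^ 2 -
      (s : PadicAlgCl ℓ) • (fun g => (χ g : PadicAlgCl ℓ)) ^ (A.w * k * Module.finrank ℚ A.E) := by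
    funext g
    rfl
  rw [h1]
  exact (FA A.ρ χ).sub_mem ((FA A.ρ χ).pow_mem (cf_mem A.ρ χ _) 2)
    ((FA A.ρ χ).smul_mem ((FA A.ρ χ).pow_mem (char_mem A.ρ χ) _) _)

theorem Fs_conj (k s : ℕ) (σ τ : GK K) : Fs A χ k s (τ * σ * τ⁻¹) = Fs A χ k s σ := by
  unfold Fs
  rw [char_conj, cf_conj]

theorem dead_conj {U : Subgroup (GK K)} [U.Normal] {k : ℕ} {x : GK K ⧸ U} (h : Dead A χ U k x)
    (τ : GK K) : Dead A χ U k (QuotientGroup.mk τ * x * (QuotientGroup.mk τ)⁻¹) := by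
  obtain ⟨s, hs, h1, h2⟩ := h
  refine ⟨s, hs, h1, fun g hg => ?_⟩
  have h3 := h2 (τ⁻¹ * g * τ) (by
    rw [QuotientGroup.mk_mul, QuotientGroup.mk_mul, QuotientGroup.mk_inv, hg]
    group)
  have h4 := Fs_conj (A := A) (χ := χ) k s (τ⁻¹ * g * τ) τ
  rw [h3] at h4
  have e : τ * (τ⁻¹ * g * τ) * τ⁻¹ = g := by group
  rwa [e] at h4

theorem locEq_prod {B : Type*} [CommRing B] {Q : Ideal B} [hQ : Q.IsPrime] {p : ℕ} {ι : Type*}
    (s : Finset ι) (m : ι → ℕ) (f : ι → B) (h : ∀ i ∈ s, LocEq Q p (m i) (f i)) :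
    LocEq Q p (∑ i ∈ s, m i) (∏ i ∈ s, f i) := by
  classical
  induction s using Finset.induction_on with
  | empty => simpa using LocEq.one p
  | insert a s ha ih =>
    rw [Finset.sum_insert ha, Finset.prod_insert ha]
    exact (h a (Finset.mem_insert_self a s)).mul (ih fun i hi => h i (Finset.mem_insert_of_mem hi))

end basics

section fixed

variable {A : MotSystem K ℓ} {χ : GK K →* (PadicAlgCl ℓ)ˣ} {S : Finset ℕ} {U : Subgroup (GK K)}
  (hA : IsSystem A χ S U)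

include hA in
/-- the value at Frobenius elements -/
theorem cf_frob {v : HeightOneSpectrum (𝓞 K)} (hv : IsDeg1 S v) (k : ℕ) {σ : GK K} (hσ : IsFrob v σ) :
    cf A.ρ (A.n - k) σ = ((Algebra.norm ℤ ((A.P v).coeff (A.n - k)) : ℤ) : PadicAlgCl ℓ) := by
  rw [norm_eq_prod (PadicAlgCl ℓ)]
  unfold cf
  apply Finset.prod_congr rfl
  intro τ _
  rw [(hA.isCompat v hv σ hσ).2 τ]
  change ((A.P v).map (τ.comp (algebraMap (𝓞 A.E) A.E))).coeff (A.n - k) = _
  rw [coeff_map]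
  rfl

include hA in
theorem Fs_frob {v : HeightOneSpectrum (𝓞 K)} (hv : IsDeg1 S v) (k s : ℕ) {σ : GK K} (hσ : IsFrob v σ) :
    Fs A χ k s σ = 0 ↔ (Algebra.norm ℤ ((A.P v).coeff (A.n - k)) : ℤ) ^ 2 =
      (s : ℤ) * (Ideal.absNorm v.asIdeal : ℤ) ^ (A.w * k * Module.finrank ℚ A.E) := by
  unfold Fs
  rw [cf_frob hA hv k hσ, (hA.isCompat v hv σ hσ).1, sub_eq_zero]
  constructor
  · intro h
    exact_mod_cast h
  · intro h
    exact_mod_cast congrArg (Int.cast : ℤ → PadicAlgCl ℓ) h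

include hA in
theorem bound1 {v : HeightOneSpectrum (𝓞 K)} (hv : IsDeg1 S v) {k : ℕ} (hkn : k ≤ A.n) (τ : A.E →+* ℂ) :
    ‖τ (((A.P v).coeff (A.n - k) : 𝓞 A.E) : A.E)‖ ^ 2 ≤
      (A.n.choose k : ℝ) ^ 2 * ((Ideal.absNorm v.asIdeal : ℝ) ^ A.w) ^ k := by
  obtain ⟨hm, hn⟩ := hA.isMonic v hv
  have h := norm_coeff_sq_le ((A.P v).map (τ.comp (algebraMap (𝓞 A.E) A.E))) A.n k hkn
    (hm.map _) (by rw [hm.natDegree_map, hn])
    ((Ideal.absNorm v.asIdeal : ℝ) ^ A.w) (hA.isWeil v hv τ)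
  rw [coeff_map] at h
  exact h

theorem bound_prod (A : MotSystem K ℓ) (v : HeightOneSpectrum (𝓞 K)) (k : ℕ) :
    ∏ τ : A.E →+* ℂ, (A.n.choose k : ℝ) ^ 2 * ((Ideal.absNorm v.asIdeal : ℝ) ^ A.w) ^ k =
      (CC A k : ℝ) * (Ideal.absNorm v.asIdeal : ℝ) ^ (A.w * k * Module.finrank ℚ A.E) := by
  rw [Finset.prod_const, Finset.card_univ, NumberField.Embeddings.card, CC]
  push_cast
  ring

include hA in
theorem bound2 {v : HeightOneSpectrum (𝓞 K)} (hv : IsDeg1 S v) {k : ℕ} (hkn : k ≤ A.n) :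
    (((Algebra.norm ℤ ((A.P v).coeff (A.n - k)) : ℤ) : ℝ)) ^ 2 ≤
      (CC A k : ℝ) * (Ideal.absNorm v.asIdeal : ℝ) ^ (A.w * k * Module.finrank ℚ A.E) := by
  rw [norm_sq_eq, ← bound_prod]
  exact Finset.prod_le_prod (fun τ _ => by positivity) (fun τ _ => bound1 hA hv hkn τ)

include hA in
/-- **alive classes** -/
theorem alive [U.Normal] (hU : IsOpen (U : Set (GK K))) {k : ℕ} (hkn : k ≤ A.n) (x : GK K ⧸ U)
    (hx : ¬ Dead A χ U k x) :
    Tendsto (dens fun v : HeightOneSpectrum (𝓞 K) => IsDeg1 S v ∧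
      (∃ σ, (QuotientGroup.mk σ : GK K ⧸ U) = x ∧ IsFrob v σ) ∧
      ∃ M, A.w * k * Module.finrank ℚ A.E ≤ 2 * M ∧
        (0 < A.defect k ∨ A.w * k * Module.finrank ℚ A.E < 2 * M) ∧
        ((Ideal.absNorm v.asIdeal : ℤ)) ^ M ∣ Algebra.norm ℤ ((A.P v).coeff (A.n - k))) atTop (𝓝 0) := by
  classical
  have h1 : ∀ s ≤ CC A k, Tendsto (dens fun v : HeightOneSpectrum (𝓞 K) =>
      (0 < A.defect k ∨ s = 0) ∧
        ∃ σ, (Fs A χ k s σ = 0 ∧ (QuotientGroup.mk σ : GK K ⧸ U) = x) ∧ IsFrob v σ) atTop (𝓝 0) := by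
    intro s hs
    by_cases hc : 0 < A.defect k ∨ s = 0
    · rcases alternativeU A.ρ χ U hU hA.isCont.1 hA.isCont.2 hA.connected (Fs A χ k s) (Fs_mem k s)
        (Fs_conj k s) x with h | h
      · exact absurd ⟨s, hs, hc, h⟩ hx
      · refine squeeze_zero (fun N => dens_nonneg _ _) (fun N => dens_mono ?_ N) h
        exact fun v hv => hv.2
    · have : (fun v : HeightOneSpectrum (𝓞 K) => (0 < A.defect k ∨ s = 0) ∧
        ∃ σ, (Fs A χ k s σ = 0 ∧ (QuotientGroup.mk σ : GK K ⧸ U) = x) ∧ IsFrob v σ) = fun _ => False := by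
        funext v
        apply propext
        exact ⟨fun h => hc h.1, False.elim⟩
      rw [this]
      exact dens_finite _ (by simp)
  have h2 := dens_range (CC A k) _ h1
  have h3 := dens_finite _ (finite_norm_mem (K := K) (Finset.range (CC A k + 1)))
  have h4 := h2.add h3
  rw [add_zero] at h4
  refine squeeze_zero (fun N => dens_nonneg _ _)
    (fun N => (dens_mono ?_ N).trans (dens_or _ _ N)) h4
  rintro v ⟨hv, ⟨σ, hσx, hσ⟩, M, hM, hstrict, hdvd⟩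
  obtain ⟨s, hs, hsN⟩ := value (Ideal.absNorm v.asIdeal) hv.1 M _ (CC A k) _ hM hdvd (bound2 hA hv hkn)
  by_cases hc : 0 < A.defect k ∨ s = 0
  · exact Or.inl ⟨s, hs, hc, σ, ⟨(Fs_frob hA hv k s hσ).mpr hsN, hσx⟩, hσ⟩
  · right
    rw [not_or] at hc
    have hlt := hstrict.resolve_left hc.1
    have hdv : ((Ideal.absNorm v.asIdeal : ℕ) : ℤ) ∣ (s : ℤ) := by
      have h5 : ((Ideal.absNorm v.asIdeal : ℤ)) ^ (A.w * k * Module.finrank ℚ A.E + 1) ∣
          (Algebra.norm ℤ ((A.P v).coeff (A.n - k))) ^ 2 := by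
        refine (pow_dvd_pow _ (show A.w * k * Module.finrank ℚ A.E + 1 ≤ 2 * M by omega)).trans ?_
        rw [mul_comm 2 M, pow_mul]
        exact pow_dvd_pow_of_dvd hdvd 2
      rw [hsN, pow_succ, mul_comm (s : ℤ)] at h5
      exact (mul_dvd_mul_iff_left (pow_ne_zero _ (by exact_mod_cast hv.1.ne_zero))).mp h5
    have hle : Ideal.absNorm v.asIdeal ≤ s :=
      Nat.le_of_dvd (Nat.pos_of_ne_zero hc.2) (by exact_mod_cast hdv)
    rw [Finset.mem_range]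
    omega

include hA in
/-- **dead classes** -/
theorem dead_not_ordinary {k : ℕ} {x : GK K ⧸ U} (hx : Dead A χ U k x)
    {σ₀ : A.E →+* AlgebraicClosure K} (hk : A.Vertex σ₀ k) {v : HeightOneSpectrum (𝓞 K)} (hv : IsDeg1 S v)
    {γ : GK K} (hγ : IsFrob v γ) (hγx : (QuotientGroup.mk γ : GK K ⧸ U) = x) : ¬ OrdinaryAt A v := by
  rintro ⟨Q, hQ, hord⟩
  haveI := hQ.1.isPrime
  have hp := norm_mem hv.1 hQ.2
  obtain ⟨s, hs, hc, hF⟩ := hx
  have hN := (Fs_frob hA hv k s hγ).mp (hF γ hγx)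
  have h1 := locEq_prod Finset.univ (fun σ => A.hp σ k) (fun σ => A.cof v (A.n - k) σ)
    (fun σ _ => hord σ k (hA.vertices σ₀ σ k hk))
  have h3 : ∏ σ : A.E →+* AlgebraicClosure K, A.cof v (A.n - k) σ =
      ((Algebra.norm ℤ ((A.P v).coeff (A.n - k)) : ℤ) : 𝓞 (AlgebraicClosure K)) :=
    (norm_eq_prod_int (AlgebraicClosure K) _).symm
  rw [h3] at h1
  have h4 := h1.pow 2
  have h5 : LocDvd Q (Ideal.absNorm v.asIdeal) (A.w * k * Module.finrank ℚ A.E)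
      ((((Algebra.norm ℤ ((A.P v).coeff (A.n - k)) : ℤ) : 𝓞 (AlgebraicClosure K))) ^ 2) := by
    refine ⟨1, fun h => hQ.1.isPrime.ne_top ((Ideal.eq_top_iff_one _).mpr h), ?_⟩
    rw [one_mul]
    have h6 := congrArg (Int.cast : ℤ → 𝓞 (AlgebraicClosure K)) hN
    push_cast at h6
    rw [h6]
    exact dvd_mul_left _ _
  have h6 := h4.lt_of_dvd hv.1 hp h5
  rcases hc with hc | hc
  · unfold MotSystem.defect at hc
    rw [Finset.sum_sub_distrib, Finset.sum_const, Finset.card_univ, NumberField.Embeddings.card,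
      nsmul_eq_mul, ← Finset.mul_sum] at hc
    zify at h6
    push_cast at hc h6
    linarith
  · -- the norm is zero
    rw [hc, Nat.cast_zero, zero_mul] at hN
    have hN0 : (Algebra.norm ℤ ((A.P v).coeff (A.n - k)) : ℤ) = 0 := by
      exact pow_eq_zero_iff two_ne_zero |>.mp hN
    rw [hN0, Int.cast_zero] at h1
    obtain ⟨s', u, hs', hu, e⟩ := h1
    rw [mul_zero] at e
    rcases mul_eq_zero.mp e.symm with h | h
    · exact hu (h ▸ Q.zero_mem)
    · exact pow_ne_zero _ (by exact_mod_cast hv.1.ne_zero) h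

include hA in
/-- **the class of the identity is alive** -/
theorem one_alive [U.Normal] {k : ℕ} {σ₀ : A.E →+* AlgebraicClosure K} (hk : A.Vertex σ₀ k) :
    ¬ Dead A χ U k (1 : GK K ⧸ U) := by
  rintro ⟨s, hs, -, hF⟩
  obtain ⟨hk0, hkn, hlt0⟩ := hk
  have h1 : Fs A χ k s 1 = 0 := hF 1 rfl
  unfold Fs at h1
  rw [cf_one, map_one, Units.val_one, one_pow, mul_one, sub_eq_zero, Nat.choose_symm hkn.le,
    NumberField.Embeddings.card] at h1
  have hs2 : CC A k = s := Nat.cast_injective h1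
  obtain ⟨v, hv, ⟨u, hu, hfu⟩, τ, hτ⟩ := hA.nonScalar ⟨σ₀, k, hk0, hkn, hlt0⟩
  have h3 := (Fs_frob hA hv k s hfu).mp (hF u ((QuotientGroup.eq_one_iff u).mpr hu))
  rw [← hs2] at h3
  have h4 : (((Algebra.norm ℤ ((A.P v).coeff (A.n - k)) : ℤ) : ℝ)) ^ 2 =
      (CC A k : ℝ) * (Ideal.absNorm v.asIdeal : ℝ) ^ (A.w * k * Module.finrank ℚ A.E) := by exact_mod_cast h3
  have hp0 : (0 : ℝ) < (Ideal.absNorm v.asIdeal : ℝ) := by exact_mod_cast hv.1.pos
  have hch : (0 : ℝ) < (A.n.choose k : ℝ) := by exact_mod_cast Nat.choose_pos hkn.le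
  rw [norm_sq_eq, ← bound_prod] at h4
  obtain ⟨hm, hn⟩ := hA.isMonic v hv
  have h6 : ‖τ (((A.P v).coeff (A.n - k) : 𝓞 A.E) : A.E)‖ ^ 2 =
      (A.n.choose k : ℝ) ^ 2 * ((Ideal.absNorm v.asIdeal : ℝ) ^ A.w) ^ k := by
    by_contra hne
    have hlt := lt_of_le_of_ne (bound1 hA hv hkn.le τ) hne
    have hpos : ∀ η : A.E →+* ℂ, 0 < ‖η (((A.P v).coeff (A.n - k) : 𝓞 A.E) : A.E)‖ ^ 2 := by
      intro η
      have h7 : ∏ τ : A.E →+* ℂ, ‖τ (((A.P v).coeff (A.n - k) : 𝓞 A.E) : A.E)‖ ^ 2 ≠ 0 := by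
        rw [h4]
        exact Finset.prod_ne_zero_iff.mpr fun _ _ => by positivity
      have h8 := Finset.prod_ne_zero_iff.mp h7 η (Finset.mem_univ _)
      exact lt_of_le_of_ne (by positivity) (Ne.symm h8)
    have := Finset.prod_lt_prod (s := (Finset.univ : Finset (A.E →+* ℂ)))
      (fun η _ => hpos η) (fun η _ => bound1 hA hv hkn.le η) ⟨τ, Finset.mem_univ _, hlt⟩
    exact this.ne h4
  have h7 := scalar_of_norm_coeff ((A.P v).map (τ.comp (algebraMap (𝓞 A.E) A.E))) A.n k hk0 hkn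
    (hm.map _) (by rw [hm.natDegree_map, hn])
    ((Ideal.absNorm v.asIdeal : ℝ) ^ A.w) (by positivity) (hA.isWeil v hv τ) (by rw [coeff_map]; exact h6)
  obtain ⟨α, hα⟩ := h7
  exact hτ α hα

include hA in
/-- the norm is divisible by a large power of `p` at the places which are not ordinary -/
theorem norm_dvd {v : HeightOneSpectrum (𝓞 K)} (hv : IsDeg1 S v) {Q : Ideal (𝓞 (AlgebraicClosure K))}
    (hQ : IsOver Q v) {γ : GK K}
    (hγ : ∀ x : 𝓞 (AlgebraicClosure K), γ • x - x ^ Ideal.absNorm v.asIdeal ∈ Q)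
    (hadm : AdmissibleAt A γ) (σ₀ : A.E →+* AlgebraicClosure K) (k : ℕ) (hk : A.Vertex σ₀ k)
    (hex : ¬ LocEq Q (Ideal.absNorm v.asIdeal) (A.hp σ₀ k) (A.cof v (A.n - k) σ₀)) :
    ∃ M, A.w * k * Module.finrank ℚ A.E ≤ 2 * M ∧
        (0 < A.defect k ∨ A.w * k * Module.finrank ℚ A.E < 2 * M) ∧
        ((Ideal.absNorm v.asIdeal : ℤ)) ^ M ∣ Algebra.norm ℤ ((A.P v).coeff (A.n - k)) := by
  classical
  haveI := hQ.1.isPrime
  have hp := norm_mem hv.1 hQ.2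
  have hkn : k ≤ A.n := hk.2.1.le
  have hd := dichotomy σ₀ Q _ hv.1 hp (hA.isUnram _ hv.1 hv.2) _ _ ((hA.isMazur v hv Q hQ σ₀).1 k hkn) hex
  let m : (A.E →+* AlgebraicClosure K) → ℕ := fun σ =>
    A.hp σ k + (if σ ∈ orbit A γ σ₀ then 1 else 0)
  have hm : ∀ σ ∈ (Finset.univ : Finset (A.E →+* AlgebraicClosure K)),
      LocDvd Q (Ideal.absNorm v.asIdeal) (m σ) (A.cof v (A.n - k) σ) := by
    intro σ _
    by_cases hσ : σ ∈ orbit A γ σ₀
    · have : m σ = A.hp σ k + 1 := by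
        change A.hp σ k + (if σ ∈ orbit A γ σ₀ then 1 else 0) = _
        rw [if_pos hσ]
      rw [this]
      obtain ⟨j, rfl⟩ := hσ
      have e1 : A.hp (mv (γ ^ j) σ₀) k = A.hp σ₀ k := by
        unfold MotSystem.hp
        rw [(hA.isHodge σ₀).2.2.2.2 (γ ^ j)]
      have e2 : A.cof v (A.n - k) (mv (γ ^ j) σ₀) = γ ^ j • A.cof v (A.n - k) σ₀ := by
        unfold MotSystem.cof
        rw [smul_map]
      rw [e1, e2]
      exact frob_pow_dvd hγ hd j
    · have : m σ = A.hp σ k := by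
        change A.hp σ k + (if σ ∈ orbit A γ σ₀ then 1 else 0) = _
        rw [if_neg hσ, add_zero]
      rw [this]
      exact (hA.isMazur v hv Q hQ σ).1 _ hkn
  have h2 := LocDvd.prod Finset.univ m (fun σ => A.cof v (A.n - k) σ) hm
  have h3 : ∏ σ : A.E →+* AlgebraicClosure K, A.cof v (A.n - k) σ =
      ((Algebra.norm ℤ ((A.P v).coeff (A.n - k)) : ℤ) : 𝓞 (AlgebraicClosure K)) :=
    (norm_eq_prod_int (AlgebraicClosure K) _).symm
  rw [h3] at h2
  have h4 : ∑ σ, m σ = ∑ σ, A.hp σ k + (orbit A γ σ₀).ncard := by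
    rw [Finset.sum_add_distrib]
    congr 1
    rw [Finset.sum_ite, Finset.sum_const_zero, add_zero, Finset.sum_const, smul_eq_mul, mul_one,
      ← Set.ncard_coe_finset]
    congr 1
    ext σ
    simp
  have h5 := hadm σ₀ k hk
  have hpos : 0 < (orbit A γ σ₀).ncard := by
    rw [Set.ncard_pos (Set.toFinite _)]
    exact ⟨σ₀, 0, by rw [pow_zero, mv_one]⟩
  have e3 : A.defect k = ((A.w * k * Module.finrank ℚ A.E : ℕ) : ℤ) - 2 * ∑ σ, (A.hp σ k : ℤ) := by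
    unfold MotSystem.defect
    rw [Finset.sum_sub_distrib, Finset.sum_const, Finset.card_univ, NumberField.Embeddings.card,
      nsmul_eq_mul, ← Finset.mul_sum]
    push_cast
    ring
  have h4' : ((∑ σ, m σ : ℕ) : ℤ) = ∑ σ, (A.hp σ k : ℤ) + ((orbit A γ σ₀).ncard : ℤ) := by
    rw [h4]; push_cast; rfl
  refine ⟨∑ σ, m σ, ?_, ?_, h2.int hv.1 hp⟩
  · zify
    push_cast at e3 h4' ⊢
    linarith
  · by_cases h0 : 0 < A.defect k
    · exact Or.inl h0
    · right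
      have hpos' : (0 : ℤ) < ((orbit A γ σ₀).ncard : ℤ) := by exact_mod_cast hpos
      zify
      push_cast at e3 h4' ⊢
      linarith

end fixed

end Pool.Agent.U41.ED
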