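import Pool.Agent.U41.ED.Eng
import Pool.Agent.W528.Ord.Main2
import Pool.Agent.W850.Ord.LowDens

/-! The density of the ordinary places. -/

set_option autoImplicit false
set_option linter.all false

namespace Pool.Agent.U41.ED

open MeasureTheory Topology Filter NumberField IsDedekindDomain Polynomial
open Pool.Agent.W401.Cheb Pool.Agent.W528.Ord Pool.Agent.W850.Ord
open Pool.Agent.W528.Ord.MultSystem (mv IsDeg1 IsOver mv_mul mv_one mv_inj mv_fix_open norm_mem frob_pow_dvd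
  mv_conj_pow)

variable {K : Type} [Field K] [NumberField K] {ℓ : ℕ} [Fact ℓ.Prime] {ι : Type} [Fintype ι]
  {A : ι → MotSystem K ℓ} {χ : GK K →* (PadicAlgCl ℓ)ˣ} {S : ι → Finset ℕ} {U : Subgroup (GK K)}
  (hA : ∀ i, IsSystem (A i) χ (S i) U)

/-- the classes which are alive for all pieces and vertices -/
def Alive (A : ι → MotSystem K ℓ) (χ : GK K →* (PadicAlgCl ℓ)ˣ) (U : Subgroup (GK K)) : Set (GK K ⧸ U) :=
  {x | ∀ i k, (∃ σ, (A i).Vertex σ k) → ¬ Dead (A i) χ U k x}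

include hA in
theorem alive_of_ordinary {v : HeightOneSpectrum (𝓞 K)} (hv : AllOrdinaryAt A S v) {γ : GK K}
    (hγ : IsFrob v γ) : (QuotientGroup.mk γ : GK K ⧸ U) ∈ Alive A χ U := by
  obtain ⟨hp, hS, hord⟩ := hv
  rintro i k ⟨σ, hk⟩ hd
  exact dead_not_ordinary (hA i) hd hk ⟨hp, hS i⟩ hγ rfl (hord i)

include hA in
theorem admissible_class {i : ι} {γ u : GK K} (hu : u ∈ U) (h : AdmissibleAt (A i) γ) :
    AdmissibleAt (A i) (γ * u) := by
  intro σ₀ k hk
  have e0 : ∀ (j : ℕ) (σ : (A i).E →+* AlgebraicClosure K), mv ((γ * u) ^ j) σ = mv (γ ^ j) σ := by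
    intro j
    induction j with
    | zero => intro σ; rw [pow_zero, pow_zero]
    | succ j ih =>
      intro σ
      rw [pow_succ, pow_succ, mv_mul, mv_mul, ih, mv_mul, (hA i).fix u hu σ]
  have e : orbit (A i) (γ * u) σ₀ = orbit (A i) γ σ₀ := by
    unfold orbit
    ext σ
    simp only [Set.mem_setOf_eq, e0]
  rw [e]
  exact h σ₀ k hk

include hA in
theorem class_dens [U.Normal] (hU : IsOpen (U : Set (GK K))) (x : GK K ⧸ U) (hx : x ∈ Alive A χ U)
    (hadm : ∀ γ : GK K, (QuotientGroup.mk γ : GK K ⧸ U) = x → ∀ i, AdmissibleAt (A i) γ) :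
    Tendsto (dens fun v : HeightOneSpectrum (𝓞 K) =>
      (∃ γ, IsFrob v γ ∧ (QuotientGroup.mk γ : GK K ⧸ U) = x) ∧ ¬ AllOrdinaryAt A S v) atTop (𝓝 0) := by
  classical
  have hun := dens_biUnion (Finset.univ.sigma (fun i : ι => (Finset.range (A i).n).filter
      fun k => ∃ σ, (A i).Vertex σ k))
    (fun (y : Σ _ : ι, ℕ) v => IsDeg1 (S y.1) v ∧
      (∃ σ, (QuotientGroup.mk σ : GK K ⧸ U) = x ∧ IsFrob v σ) ∧
      ∃ M, (A y.1).w * y.2 * Module.finrank ℚ (A y.1).E ≤ 2 * M ∧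
        (0 < (A y.1).defect y.2 ∨ (A y.1).w * y.2 * Module.finrank ℚ (A y.1).E < 2 * M) ∧
        ((Ideal.absNorm v.asIdeal : ℤ)) ^ M ∣ Algebra.norm ℤ (((A y.1).P v).coeff ((A y.1).n - y.2)))
    (fun y hy => by
      rw [Finset.mem_sigma, Finset.mem_filter, Finset.mem_range] at hy
      exact alive (hA y.1) hU hy.2.1.le x (hx y.1 y.2 hy.2.2))
  have h2 := dens_not_prime (K := K)
  have h3 := dens_finite _ (finite_norm_mem (K := K) (Finset.univ.biUnion S))
  have h4 := (hun.add h2).add h3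
  rw [add_zero, add_zero] at h4
  refine squeeze_zero (fun N => dens_nonneg _ _) (fun N => (dens_mono ?_ N).trans
    ((dens_or _ _ N).trans (add_le_add_left (dens_or _ _ N) _))) h4
  rintro v ⟨⟨γ, ⟨Q, hQ, hQv, hγ⟩, hγx⟩, hno⟩
  by_cases hp : (Ideal.absNorm v.asIdeal).Prime
  · by_cases hS : Ideal.absNorm v.asIdeal ∈ Finset.univ.biUnion S
    · exact Or.inr hS
    · left
      left
      have hS' : ∀ i, Ideal.absNorm v.asIdeal ∉ S i := fun i hi =>
        hS (Finset.mem_biUnion.mpr ⟨i, Finset.mem_univ _, hi⟩)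
      by_contra hcon
      apply hno
      refine ⟨hp, hS', fun i => ⟨Q, ⟨hQ, hQv⟩, fun σ k hk => ?_⟩⟩
      by_contra hex
      apply hcon
      refine ⟨⟨i, k⟩, ?_, ⟨hp, hS' i⟩, ⟨γ, hγx, ⟨Q, hQ, hQv, hγ⟩⟩, ?_⟩
      · rw [Finset.mem_sigma, Finset.mem_filter, Finset.mem_range]
        exact ⟨Finset.mem_univ _, hk.2.1, σ, hk⟩
      · exact norm_dvd (hA i) ⟨hp, hS' i⟩ ⟨hQ, hQv⟩ hγ (hadm γ hγx i) σ k hk hex
  · exact Or.inl (Or.inr hp)

theorem isFrob_conj {v : HeightOneSpectrum (𝓞 K)} {γ : GK K} (h : IsFrob v γ) (τ : GK K) :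
    IsFrob v (τ * γ * τ⁻¹) := by
  obtain ⟨Q, hQ, hQv, hγ⟩ := h
  let f : 𝓞 (AlgebraicClosure K) →+* 𝓞 (AlgebraicClosure K) :=
    MulSemiringAction.toRingHom (GK K) (𝓞 (AlgebraicClosure K)) τ⁻¹
  have hf : ∀ x, f x = τ⁻¹ • x := fun x => rfl
  have hsurj : Function.Surjective f := by
    intro x
    refine ⟨τ • x, ?_⟩
    rw [hf, inv_smul_smul]
  refine ⟨Q.comap f, Ideal.comap_isMaximal_of_surjective f hsurj, ?_, ?_⟩
  · ext a
    rw [← hQv]
    simp only [Ideal.mem_comap]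
    have e : f (algebraMap (𝓞 K) (𝓞 (AlgebraicClosure K)) a) =
        algebraMap (𝓞 K) (𝓞 (AlgebraicClosure K)) a := by
      rw [hf]
      apply RingOfIntegers.ext
      change (τ⁻¹ : GK K) (algebraMap K (AlgebraicClosure K) (a : K)) = algebraMap K (AlgebraicClosure K) (a : K)
      exact AlgEquiv.commutes _ _
    rw [e]
  · intro x
    rw [Ideal.mem_comap, map_sub, map_pow, hf, hf]
    have e : τ⁻¹ • (τ * γ * τ⁻¹) • x = γ • τ⁻¹ • x := by
      rw [mul_smul, mul_smul, inv_smul_smul]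
    rw [e]
    exact hγ (τ⁻¹ • x)

/-- the density of a set of classes which is stable under conjugation -/
theorem classes_dens [U.Normal] (hU : IsOpen (U : Set (GK K))) (X : Set (GK K ⧸ U))
    (hX : ∀ x ∈ X, ∀ τ : GK K, QuotientGroup.mk τ * x * (QuotientGroup.mk τ)⁻¹ ∈ X) :
    Tendsto (dens fun v : HeightOneSpectrum (𝓞 K) =>
      ∃ γ, IsFrob v γ ∧ (QuotientGroup.mk γ : GK K ⧸ U) ∈ X) atTop
      (𝓝 ((X.ncard : ℝ) / (Nat.card (GK K ⧸ U) : ℝ))) := by
  have h := chebK K U hU {γ | (QuotientGroup.mk γ : GK K ⧸ U) ∈ X}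
    (fun σ hσ τ => by
      change (QuotientGroup.mk (τ * σ * τ⁻¹) : GK K ⧸ U) ∈ X
      rw [QuotientGroup.mk_mul, QuotientGroup.mk_mul, QuotientGroup.mk_inv]
      exact hX _ hσ τ)
    (fun σ hσ u hu => by
      change (QuotientGroup.mk (σ * u) : GK K ⧸ U) ∈ X
      rw [QuotientGroup.mk_mul_of_mem σ hu]
      exact hσ)
  have e : (QuotientGroup.mk : GK K → GK K ⧸ U) '' {γ | (QuotientGroup.mk γ : GK K ⧸ U) ∈ X} = X := by
    ext x
    constructor
    · rintro ⟨γ, hγ, rfl⟩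
      exact hγ
    · intro hx
      obtain ⟨γ, rfl⟩ := QuotientGroup.mk_surjective x
      exact ⟨γ, hx, rfl⟩
  rw [e] at h
  have e2 : (fun v : HeightOneSpectrum (𝓞 K) => ∃ σ ∈ {γ : GK K | (QuotientGroup.mk γ : GK K ⧸ U) ∈ X},
      IsFrob v σ) = fun v => ∃ γ : GK K, IsFrob v γ ∧ (QuotientGroup.mk γ : GK K ⧸ U) ∈ X := by
    funext v
    apply propext
    constructor
    · rintro ⟨σ, h1, h2⟩
      exact ⟨σ, h2, h1⟩
    · rintro ⟨σ, h1, h2⟩
      exact ⟨σ, h2, h1⟩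
  rw [e2] at h
  exact h

/-- the places with Frobenius in the class `x` have positive density -/
theorem class_pos [U.Normal] (hU : IsOpen (U : Set (GK K))) (x : GK K ⧸ U) :
    ∃ c : ℝ, 1 / (Nat.card (GK K ⧸ U) : ℝ) ≤ c ∧
    Tendsto (dens fun v : HeightOneSpectrum (𝓞 K) =>
      ∃ γ, IsFrob v γ ∧ (QuotientGroup.mk γ : GK K ⧸ U) = x) atTop (𝓝 c) := by
  haveI : Finite (GK K ⧸ U) := Subgroup.quotient_finite_of_isOpen _ hU
  let X : Set (GK K ⧸ U) := {y | ∃ t : GK K, QuotientGroup.mk t * x * (QuotientGroup.mk t)⁻¹ = y}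
  have h := classes_dens hU X (by
    rintro y ⟨t, rfl⟩ τ
    refine ⟨τ * t, ?_⟩
    rw [QuotientGroup.mk_mul]
    group)
  have e : (fun v : HeightOneSpectrum (𝓞 K) => ∃ γ, IsFrob v γ ∧ (QuotientGroup.mk γ : GK K ⧸ U) ∈ X) =
      fun v => ∃ γ, IsFrob v γ ∧ (QuotientGroup.mk γ : GK K ⧸ U) = x := by
    funext v
    apply propext
    constructor
    · rintro ⟨γ, h1, t, ht⟩
      refine ⟨t⁻¹ * γ * t⁻¹⁻¹, isFrob_conj h1 t⁻¹, ?_⟩
      rw [QuotientGroup.mk_mul, QuotientGroup.mk_mul, QuotientGroup.mk_inv, QuotientGroup.mk_inv,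
        ← ht, QuotientGroup.mk_inv]
      group
    · rintro ⟨γ, h1, h2⟩
      exact ⟨γ, h1, 1, by rw [QuotientGroup.mk_one, one_mul, inv_one, mul_one, h2]⟩
  rw [e] at h
  refine ⟨_, ?_, h⟩
  have hX : 1 ≤ X.ncard := by
    rw [Nat.one_le_iff_ne_zero, ← Nat.pos_iff_ne_zero, Set.ncard_pos (Set.toFinite _)]
    exact ⟨x, 1, by rw [QuotientGroup.mk_one, one_mul, inv_one, mul_one]⟩
  have hc : (0 : ℝ) < (Nat.card (GK K ⧸ U) : ℝ) := by exact_mod_cast Nat.card_pos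
  rw [div_le_div_iff_of_pos_right hc]
  exact_mod_cast hX

include hA in
/-- **part one** -/
theorem part_one [U.Normal] (hU : IsOpen (U : Set (GK K))) {v₁ : HeightOneSpectrum (𝓞 K)}
    (hv₁ : AllOrdinaryAt A S v₁) {γ₁ : GK K} (hγ₁ : IsFrob v₁ γ₁) (hadm : ∀ i, AdmissibleAt (A i) γ₁) :
    Tendsto (ratio fun v : HeightOneSpectrum (𝓞 K) =>
      (∃ u ∈ U, IsFrob v (γ₁ * u)) ∧ ¬ AllOrdinaryAt A S v) atTop (𝓝 0) ∧
    1 / (Nat.card (GK K ⧸ U) : ℝ) ≤ lowerDensity (AllOrdinaryAt A S) := by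
  have hx := alive_of_ordinary hA hv₁ hγ₁
  have h1 := class_dens (S := S) hA hU (QuotientGroup.mk γ₁) hx (by
    intro γ hγ i
    have h2 : γ₁⁻¹ * γ ∈ U := by rw [← QuotientGroup.eq, hγ]
    have h3 := admissible_class hA h2 (hadm i)
    rwa [mul_inv_cancel_left] at h3)
  constructor
  · refine ratio_tendsto _ 0 ?_
    refine squeeze_zero (fun N => dens_nonneg _ _) (fun N => dens_mono ?_ N) h1
    rintro v ⟨⟨u, hu, hγ⟩, hno⟩
    exact ⟨⟨γ₁ * u, hγ, QuotientGroup.mk_mul_of_mem γ₁ hu⟩, hno⟩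
  · obtain ⟨c, hc, h2⟩ := class_pos hU (QuotientGroup.mk γ₁ : GK K ⧸ U)
    refine hc.trans ?_
    apply lowerDensity_ge
    intro ε hε
    have e1 := h1.eventually (gt_mem_nhds (show (0:ℝ) < ε / 2 by positivity))
    have e2 := h2.eventually (lt_mem_nhds (show c - ε / 2 < c by linarith))
    filter_upwards [e1, e2] with N h1 h2
    have h3 : dens (fun v : HeightOneSpectrum (𝓞 K) =>
        ∃ γ, IsFrob v γ ∧ (QuotientGroup.mk γ : GK K ⧸ U) = QuotientGroup.mk γ₁) N ≤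
        dens (AllOrdinaryAt A S) N + dens (fun v : HeightOneSpectrum (𝓞 K) =>
          (∃ γ, IsFrob v γ ∧ (QuotientGroup.mk γ : GK K ⧸ U) = QuotientGroup.mk γ₁) ∧
            ¬ AllOrdinaryAt A S v) N := by
      refine le_trans (dens_mono ?_ N) (dens_or _ _ N)
      intro v hv
      by_cases h : AllOrdinaryAt A S v
      · exact Or.inl h
      · exact Or.inr ⟨hv, h⟩
    linarith

include hA in
theorem adm_of_one (h1 : ∀ i, AdmissibleAt (A i) 1) (γ : GK K) (i : ι) : AdmissibleAt (A i) γ := by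
  intro σ₀ k hk
  refine (h1 i σ₀ k hk).trans ?_
  have hsub : orbit (A i) 1 σ₀ ⊆ orbit (A i) γ σ₀ := by
    rintro σ ⟨j, h⟩
    rw [one_pow] at h
    exact ⟨0, by rw [pow_zero]; exact h⟩
  have := Set.ncard_le_ncard hsub (Set.toFinite _)
  have : ((orbit (A i) 1 σ₀).ncard : ℤ) ≤ ((orbit (A i) γ σ₀).ncard : ℤ) := by exact_mod_cast this
  linarith

include hA in
/-- **part two** -/
theorem part_two [U.Normal] (hU : IsOpen (U : Set (GK K))) (hadm : ∀ i, AdmissibleAt (A i) 1) :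
    Tendsto (ratio (AllOrdinaryAt A S)) atTop
      (𝓝 (((ordinaryClasses A S U).ncard : ℝ) / (Nat.card (GK K ⧸ U) : ℝ))) ∧
    (1 : GK K ⧸ U) ∈ ordinaryClasses A S U := by
  haveI : Finite (GK K ⧸ U) := Subgroup.quotient_finite_of_isOpen _ hU
  -- alive classes are ordinary classes
  have hAl : Alive A χ U = ordinaryClasses A S U := by
    ext x
    constructor
    · intro hx
      have h1 := class_dens (S := S) hA hU x hx (fun γ _ i => adm_of_one hA hadm γ i)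
      obtain ⟨c, hc, h2⟩ := class_pos hU x
      have hcard : (0 : ℝ) < (Nat.card (GK K ⧸ U) : ℝ) := by exact_mod_cast Nat.card_pos
      have hc0 : 0 < c := lt_of_lt_of_le (by positivity) hc
      by_contra hno
      have h3 : (fun v : HeightOneSpectrum (𝓞 K) =>
          (∃ γ, IsFrob v γ ∧ (QuotientGroup.mk γ : GK K ⧸ U) = x) ∧ ¬ AllOrdinaryAt A S v) =
          fun v => ∃ γ, IsFrob v γ ∧ (QuotientGroup.mk γ : GK K ⧸ U) = x := by
        funext v
        apply propext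
        constructor
        · exact fun h => h.1
        · rintro ⟨γ, hγ, hγx⟩
          exact ⟨⟨γ, hγ, hγx⟩, fun hv => hno ⟨v, γ, hv, hγ, hγx⟩⟩
      rw [h3] at h1
      exact hc0.ne' (tendsto_nhds_unique h2 h1)
    · rintro ⟨v, γ, hv, hγ, rfl⟩
      exact alive_of_ordinary hA hv hγ
  have hconj : ∀ x ∈ Alive A χ U, ∀ τ : GK K,
      QuotientGroup.mk τ * x * (QuotientGroup.mk τ)⁻¹ ∈ Alive A χ U := by
    intro x hx τ i k hk hd
    apply hx i k hk
    have h := dead_conj hd τ⁻¹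
    have e : (QuotientGroup.mk τ⁻¹ : GK K ⧸ U) * (QuotientGroup.mk τ * x * (QuotientGroup.mk τ)⁻¹) *
        (QuotientGroup.mk τ⁻¹)⁻¹ = x := by
      rw [QuotientGroup.mk_inv]
      group
    rwa [e] at h
  constructor
  · rw [← hAl]
    refine ratio_tendsto _ _ ?_
    have h1 := classes_dens hU (Alive A χ U) hconj
    have h2 : Tendsto (dens fun v : HeightOneSpectrum (𝓞 K) => ∃ x ∈ (Set.toFinite (Alive A χ U)).toFinset,
        (∃ γ, IsFrob v γ ∧ (QuotientGroup.mk γ : GK K ⧸ U) = x) ∧ ¬ AllOrdinaryAt A S v) atTop (𝓝 0) :=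
      dens_biUnion _ _ (fun x hx => class_dens (S := S) hA hU x ((Set.Finite.mem_toFinset _).mp hx)
        (fun γ _ i => adm_of_one hA hadm γ i))
    have h3 := h1.sub h2
    rw [sub_zero] at h3
    refine tendsto_of_tendsto_of_tendsto_of_le_of_le h3 h1 (fun N => ?_) (fun N => ?_)
    · have h4 : dens (fun v : HeightOneSpectrum (𝓞 K) =>
          ∃ γ, IsFrob v γ ∧ (QuotientGroup.mk γ : GK K ⧸ U) ∈ Alive A χ U) N ≤
          dens (AllOrdinaryAt A S) N + dens (fun v : HeightOneSpectrum (𝓞 K) =>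
          ∃ x ∈ (Set.toFinite (Alive A χ U)).toFinset,
          (∃ γ, IsFrob v γ ∧ (QuotientGroup.mk γ : GK K ⧸ U) = x) ∧ ¬ AllOrdinaryAt A S v) N := by
        refine le_trans (dens_mono ?_ N) (dens_or _ _ N)
        rintro v ⟨γ, hγ, hγx⟩
        by_cases h : AllOrdinaryAt A S v
        · exact Or.inl h
        · exact Or.inr ⟨_, (Set.Finite.mem_toFinset _).mpr hγx, ⟨γ, hγ, rfl⟩, h⟩
      change _ - _ ≤ _
      linarith
    · refine dens_mono ?_ N
      intro v hv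
      obtain ⟨γ, hγ⟩ := exists_isFrob v
      exact ⟨γ, hγ, alive_of_ordinary hA hv hγ⟩
  · rw [← hAl]
    rintro i k ⟨σ, hk⟩
    exact one_alive (hA i) hk

end Pool.Agent.U41.ED
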